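import Mathlib
import Pool.Agent.Q79.ZB.Main

/-!
MP_7da6af_nt, Q1, abelian varieties: points of large relative degree over projective space
lie in no proper algebraic subgroup.
-/

set_option autoImplicit false

namespace Pool.Agent.Results.MP_7da6af_nt.LargeRelativeDegree

open Pool.Agent.Q8.KS Pool.Agent.Q79.ZB
open Pool.Agent.Q8.ZA (AbelianVariety)

/-- Let `A` be an abelian variety over a number field `K` with absolute Galois group `G` over which
all endomorphisms of `A` are defined, let `j : W → A` be a morphism from a projective variety of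
dimension `m` (e.g. the inclusion of a subvariety) whose image
is not contained in a translate of a proper abelian subvariety, and let `H₀` be an ample class on
`W`. There is `κ > 0` such that for all finite morphisms `φ : W → ℙ^m` of degree `N` such that
`H = φ^* O(1)` is numerically a positive multiple of `H₀` there is `C > 0` with:

(1) If `[K(w) : K(φ(w))] > (1 - κ) N` and `h(φ(w)) ≥ C`, then `j(w)` lies in no algebraic subgroup
of `A` other than `A`, and its Néron-Tate height with respect to any nef class `D` is at least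
`(j^* D ⋅ H^(m-1) / N) h(φ(w)) / 4`.

(2) For every `e` there are only finitely many points `w` of `W` with
`[K(w) : K(φ(w))] > (1 - κ) N` and `[K(φ(w)) : K] ≤ e` such that `j(w)` lies in an algebraic
subgroup of `A` other than `A`. -/
theorem result {G : Type} [Group G] (W : Variety G) (A : AbelianVariety G)
    (j : GeneratingMap W A) (H₀ : W.Pic) (hH₀ : W.IsAmple H₀) :
    ∃ κ : ℝ, 0 < κ ∧ ∀ φ : Cover W, (∃ t : ℝ, 0 < t ∧ W.cls φ.H = t • W.cls H₀) →
      ∃ C : ℝ, 0 < C ∧
        (∀ w : W.Pt, (1 - κ) * φ.N < φ.relDeg w → C ≤ φ.h (φ.φ w) →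
          (∀ D ∈ A.Nef, W.deg (W.cls φ.H) (W.cls (j.pic D)) / φ.N * (φ.h (φ.φ w) / 4)
            ≤ A.hat D (j.pt w)) ∧
          ∀ H ∈ A.Proper, j.pt w ∉ H) ∧
        ∀ e : ℕ, {w : W.Pt | ((1 - κ) * φ.N < φ.relDeg w ∧ ∃ H ∈ A.Proper, j.pt w ∈ H) ∧
          (MulAction.orbit G (φ.φ w)).ncard ≤ e}.Finite :=
  subgroups j hH₀

end Pool.Agent.Results.MP_7da6af_nt.LargeRelativeDegree
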